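import Pool.Agent.N848.LT.Stm

/-!
# Project LT (helper848), leaf ROOT: relative units close to `1` are squares
-/

set_option autoImplicit false

namespace Pool.Agent.N966.LT

open NumberField IsDedekindDomain Module Pool.Agent.N848.LT

theorem t_ROOT (hINT : S_INT) : S_ROOT := by
  intro F K _ _ _ _ _ hodd hNS hPP M hM z hz hdvd
  have hzK : ((z : 𝓞 K) : K) ≠ 0 := by
    intro h
    have h1 : ((z : 𝓞 K) : K) * (((z⁻¹ : (𝓞 K)ˣ) : 𝓞 K) : K) = 1 := by
      rw [← map_mul, Units.mul_inv, map_one]
    rw [h, zero_mul] at h1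
    exact zero_ne_one h1
  obtain ⟨c0, hc0⟩ := hdvd
  have hc0' : ((z : 𝓞 K) : K) - 1 = 2 ^ M * (c0 : K) := by
    have h := congrArg (algebraMap (𝓞 K) K) hc0
    rw [map_sub, map_one, map_mul, map_pow, map_ofNat] at h
    exact h
  -- valuation facts
  have vle : ∀ (v : HeightOneSpectrum (𝓞 K)) (x : 𝓞 K), v.valuation K (x : K) ≤ 1 := fun v x =>
    v.valuation_le_one x
  have v2le : ∀ v : HeightOneSpectrum (𝓞 K), v.valuation K 2 ≤ 1 := by
    intro v
    have h : v.valuation K (algebraMap (𝓞 K) K 2) ≤ 1 := v.valuation_le_one _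
    rw [map_ofNat] at h
    exact h
  have v20 : ∀ v : HeightOneSpectrum (𝓞 K), v.valuation K 2 ≠ 0 := by
    intro v
    rw [Valuation.ne_zero_iff]
    exact two_ne_zero
  have vz1 : ∀ v : HeightOneSpectrum (𝓞 K), v.valuation K (((z : 𝓞 K) : K) - 1) ≤
      v.valuation K 2 ^ M := by
    intro v
    rw [hc0', map_mul, map_pow]
    exact mul_le_of_le_one_right' (vle v c0)
  have vz : ∀ (v : HeightOneSpectrum (𝓞 K)) (y : (𝓞 K)ˣ), v.valuation K ((y : 𝓞 K) : K) = 1 := by
    intro v y
    have h1 : v.valuation K ((y : 𝓞 K) : K) * v.valuation K (((y⁻¹ : (𝓞 K)ˣ) : 𝓞 K) : K) = 1 := by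
      rw [← map_mul, ← map_mul, Units.mul_inv, map_one, map_one]
    refine le_antisymm (vle v _) ?_
    calc (1 : _) = v.valuation K ((y : 𝓞 K) : K) * v.valuation K (((y⁻¹ : (𝓞 K)ˣ) : 𝓞 K) : K) :=
          h1.symm
      _ ≤ v.valuation K ((y : 𝓞 K) : K) := mul_le_of_le_one_right' (vle v _)
  -- step A
  have hUn : ∀ v : HeightOneSpectrum (𝓞 K), Un v ((z : 𝓞 K) : K) := by
    intro v
    refine ⟨1, ?_, ?_⟩
    · rw [one_pow, mul_one]
      exact vz v z
    · rw [one_pow, mul_one]
      refine (vz1 v).trans ?_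
      have h4 : (4 : K) = 2 ^ 2 := by norm_num
      rw [h4, map_pow]
      exact pow_le_pow_right_of_le_one' (v2le v) (by omega)
  -- step B
  obtain ⟨w0, hw0⟩ := hPP _ hzK hUn (by rw [hz]; exact ⟨1, by ring⟩)
  have hint : IsIntegral ℤ w0 := by
    refine IsIntegral.of_pow (n := 2) (by norm_num) ?_
    rw [pow_two, ← hw0]
    exact RingOfIntegers.isIntegral_coe _
  have hnn : Algebra.norm F w0 = 1 ∨ Algebra.norm F w0 = -1 := by
    have h1 : Algebra.norm F w0 * Algebra.norm F w0 = 1 := by
      rw [← map_mul, ← hw0, hz]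
    have h2 : (Algebra.norm F w0 - 1) * (Algebra.norm F w0 + 1) = 0 := by
      linear_combination h1
    rcases mul_eq_zero.1 h2 with h | h
    · left
      linear_combination h
    · right
      linear_combination h
  have hneg : ∀ x : K, Algebra.norm F (-x) = - Algebra.norm F x := by
    intro x
    have h1 : -x = algebraMap F K (-1) * x := by
      rw [map_neg, map_one]
      ring
    rw [h1, map_mul, Algebra.norm_algebraMap, hodd.neg_one_pow]
    ring
  obtain ⟨w1, hw1i, hw1z, hw1n⟩ : ∃ w1 : K, IsIntegral ℤ w1 ∧ ((z : 𝓞 K) : K) = w1 * w1 ∧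
      Algebra.norm F w1 = 1 := by
    rcases hnn with h | h
    · exact ⟨w0, hint, hw0, h⟩
    · refine ⟨-w0, hint.neg, ?_, ?_⟩
      · rw [hw0]
        ring
      · rw [hneg, h]
        ring
  -- the unit
  set wO : 𝓞 K := ⟨w1, hw1i⟩ with hwO
  have hwOK : (wO : K) = w1 := rfl
  have hwz : wO * wO = (z : 𝓞 K) := by
    apply RingOfIntegers.ext
    change algebraMap (𝓞 K) K (wO * wO) = _
    rw [map_mul, hw1z]
    rfl
  have hu : wO * (wO * ((z⁻¹ : (𝓞 K)ˣ) : 𝓞 K)) = 1 := by
    rw [← mul_assoc, hwz, Units.mul_inv]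
  have hu' : (wO * ((z⁻¹ : (𝓞 K)ˣ) : 𝓞 K)) * wO = 1 := by
    rw [mul_comm, hu]
  set w : (𝓞 K)ˣ := ⟨wO, _, hu, hu'⟩ with hw
  have hwK : ((w : 𝓞 K) : K) = w1 := rfl
  refine ⟨w, by rw [hwK]; exact hw1n, ?_, ?_⟩
  · apply Units.ext
    rw [Units.val_pow_eq_pow_val, pow_two]
    exact hwz
  -- step D
  have key : ∀ v : HeightOneSpectrum (𝓞 K), v.valuation K (w1 - 1) ≤
      v.valuation K 2 ^ (M - 1) := by
    intro v
    have ha1 : v.valuation K (w1 - 1) ≤ 1 := by
      have h : v.valuation K (algebraMap (𝓞 K) K (wO - 1)) ≤ 1 := v.valuation_le_one _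
      rw [map_sub, map_one] at h
      exact h
    rcases eq_or_lt_of_le (v2le v) with h2 | h2
    · rw [h2, one_pow]
      exact ha1
    have hprod : v.valuation K (w1 - 1) * v.valuation K (w1 + 1) ≤ v.valuation K 2 ^ M := by
      rw [← map_mul]
      have : (w1 - 1) * (w1 + 1) = ((z : 𝓞 K) : K) - 1 := by
        rw [hw1z]
        ring
      rw [this]
      exact vz1 v
    have h2pos : 0 < v.valuation K 2 := zero_lt_iff.2 (v20 v)
    have hM2 : v.valuation K 2 ^ M ≤ v.valuation K 2 ^ 2 :=
      pow_le_pow_right_of_le_one' (v2le v) (by omega)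
    have hcase : ∀ x y : K, y = x + 2 → v.valuation K x * v.valuation K y ≤ v.valuation K 2 ^ 2 →
        v.valuation K x ≤ v.valuation K 2 ∧ v.valuation K y ≤ v.valuation K 2 := by
      intro x y hxy hp
      by_cases hx : v.valuation K x ≤ v.valuation K 2
      · refine ⟨hx, ?_⟩
        rw [hxy]
        exact (Valuation.map_add _ _ _).trans (max_le hx le_rfl)
      · exfalso
        rw [not_le] at hx
        have hy : v.valuation K y = v.valuation K x := by
          rw [hxy]
          exact Valuation.map_add_eq_of_lt_left _ hx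
        rw [hy, pow_two] at hp
        exact absurd hp (not_le.2 (mul_lt_mul'' hx hx zero_le zero_le))
    obtain ⟨ha, hb⟩ := hcase (w1 - 1) (w1 + 1) (by ring) (hprod.trans hM2)
    have hmax : v.valuation K 2 ≤ max (v.valuation K (w1 + 1)) (v.valuation K (w1 - 1)) := by
      have h3 : (2 : K) = (w1 + 1) - (w1 - 1) := by ring
      calc v.valuation K 2 = v.valuation K ((w1 + 1) - (w1 - 1)) := by rw [← h3]
        _ ≤ _ := Valuation.map_sub _ _ _
    have hMM : v.valuation K 2 ^ M = v.valuation K 2 ^ (M - 1) * v.valuation K 2 := by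
      rw [← pow_succ]
      congr 1
      omega
    rw [hMM] at hprod
    rcases le_max_iff.1 hmax with hb2 | ha2
    · have hb3 : v.valuation K (w1 + 1) = v.valuation K 2 := le_antisymm hb hb2
      rw [hb3] at hprod
      exact le_of_mul_le_mul_right hprod h2pos
    · exfalso
      have ha3 : v.valuation K (w1 - 1) = v.valuation K 2 := le_antisymm ha ha2
      rw [ha3, mul_comm] at hprod
      have hb4 : v.valuation K (w1 + 1) ≤ v.valuation K 2 ^ (M - 1) :=
        le_of_mul_le_mul_right hprod h2pos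
      -- the prime below
      have h2v : (2 : 𝓞 K) ∈ v.asIdeal := by
        have h5 : v.valuation K (algebraMap (𝓞 K) K 2) < 1 := by
          rw [map_ofNat]
          exact h2
        rwa [HeightOneSpectrum.valuation_lt_one_iff_mem] at h5
      have h2u : (2 : 𝓞 F) ∈ v.asIdeal.comap (algebraMap (𝓞 F) (𝓞 K)) := by
        rw [Ideal.mem_comap, map_ofNat]
        exact h2v
      let u : HeightOneSpectrum (𝓞 F) :=
        ⟨v.asIdeal.comap (algebraMap (𝓞 F) (𝓞 K)), Ideal.IsPrime.comap _, by
          intro h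
          rw [h, Ideal.mem_bot] at h2u
          exact two_ne_zero h2u⟩
      have huA : Ab v u := rfl
      have hNSu := hNS u h2u
      set c : K := 2 ^ (M - 1) with hc
      have hc0 : c ≠ 0 := pow_ne_zero _ two_ne_zero
      obtain ⟨-, -, hI⟩ := hINT F K u (-(w1 + 1) / c) (by
        intro v' hv'
        have hvv : v' = v := hNSu v' v hv' huA
        rw [hvv, map_div₀, Valuation.map_neg, hc, map_pow]
        exact div_le_one_of_le₀ hb4 zero_le)
      have hu2 : u.valuation F 2 < 1 := by
        have h5 : u.valuation F (algebraMap (𝓞 F) F 2) < 1 := by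
          rw [HeightOneSpectrum.valuation_lt_one_iff_mem]
          exact h2u
        rwa [map_ofNat] at h5
      have hu20 : 0 < u.valuation F 2 := by
        rw [zero_lt_iff, Valuation.ne_zero_iff]
        exact two_ne_zero
      obtain ⟨r, hr1, hr2⟩ := hI (2 ^ (M - 1)) (by
        rw [map_pow]
        exact pow_le_one' hu2.le _)
      have h6 : (1 : K) + algebraMap F K (2 ^ (M - 1)) * (-(w1 + 1) / c) = -w1 := by
        rw [map_pow, map_ofNat, ← hc]
        field_simp
        ring
      rw [h6, hneg, hw1n] at hr2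
      have h7 : (2 : F) = -(2 ^ (M - 1) * r) := by
        linear_combination -hr2
      have h8 : u.valuation F 2 ≤ u.valuation F 2 ^ (M - 1) := by
        calc u.valuation F 2 = u.valuation F (-(2 ^ (M - 1) * r)) := by rw [← h7]
          _ = u.valuation F 2 ^ (M - 1) * u.valuation F r := by
              rw [Valuation.map_neg, map_mul, map_pow]
          _ ≤ u.valuation F 2 ^ (M - 1) := mul_le_of_le_one_right' hr1
      have h9 : u.valuation F 2 ^ (M - 1) ≤ u.valuation F 2 ^ 2 :=
        pow_le_pow_right_of_le_one' hu2.le (by omega)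
      have h10 : u.valuation F 2 ^ 2 < u.valuation F 2 := by
        rw [pow_two]
        calc u.valuation F 2 * u.valuation F 2 < u.valuation F 2 * 1 :=
              mul_lt_mul_of_pos_left hu2 hu20
          _ = u.valuation F 2 := mul_one _
      exact absurd (h8.trans h9) (not_le.2 h10)
  -- step E
  have hall : ∀ v : HeightOneSpectrum (𝓞 K), v.valuation K ((w1 - 1) / 2 ^ (M - 1)) ≤ 1 := by
    intro v
    rw [map_div₀, map_pow]
    exact div_le_one_of_le₀ (key v) zero_le
  obtain ⟨q, hq⟩ := HeightOneSpectrum.mem_integers_of_valuation_le_one K _ hall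
  refine ⟨q, ?_⟩
  apply RingOfIntegers.ext
  have h20 : (2 : K) ^ (M - 1) ≠ 0 := pow_ne_zero _ two_ne_zero
  change algebraMap (𝓞 K) K ((w : 𝓞 K) - 1) = algebraMap (𝓞 K) K (2 ^ (M - 1) * q)
  rw [map_sub, map_one, map_mul, map_pow, map_ofNat, hq]
  change w1 - 1 = _
  field_simp

end Pool.Agent.N966.LT

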